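import Pool.Agent.Lib_helper36.NefK.Chart
import Pool.Agent.Lib_helper87.NefK.YGen

/-! Local coordinates on the blow-up of `ℙ⁴` in the sixteen points. -/

namespace NefK

open Nef87 NefRed Finset

section

variable {k F : Type} [Field k] [Field F] [Algebra k F]

theorem locAt_mono (A : Subalgebra k F) (P : Ideal A) [P.IsPrime] {B B' : Subalgebra k F}
    (h : B ≤ B') : locAt A P B ≤ locAt A P B' := by
  rintro a ⟨t, ht, htB, hc⟩
  exact ⟨t, ht, h htB, h hc⟩

theorem projS_div_c (S : OddSet) (b : Fin 5 → F) (c : F) (m : Fin 5) :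
    projS S (fun i => b i / c) m = projS S b m / c := by
  unfold projS
  split_ifs
  · rw [sub_div]
  · rfl

theorem projS_mem (B : Subalgebra k F) (S : OddSet) (u : Fin 5 → F) (h : ∀ m, u m ∈ B)
    (m : Fin 5) : projS S u m ∈ B := by
  unfold projS
  split_ifs
  · exact B.sub_mem (h _) (h _)
  · exact h _

theorem neg_not_mem_unitsAt {A : Subalgebra k F} {P : Ideal A} [P.IsPrime] {a : F}
    (hA : a ∈ A) (ha : a ∉ unitsAt A P) : -a ∉ unitsAt A P := by
  intro h
  apply ha
  have h1 : -a = (-1) * a := by ring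
  rw [h1] at h
  exact right_mem_unitsAt (A.neg_mem A.one_mem) hA h

/-- If all the coordinates of the projection from `1_S` are non-units, then the coordinates that are
units are those in `S`. -/
theorem mem_iff_of_centre (A : Subalgebra k F) (P : Ideal A) [P.IsPrime] (u : Fin 5 → F)
    (hu : ∀ m, u m ∈ A) (l0 : Fin 5) (hl0 : u l0 = 1) (S : OddSet)
    (h : ∀ m, projS S u m ∉ unitsAt A P) :
    l0 ∈ S.1 ∧ ∀ i, i ∈ S.1 ↔ u i ∈ unitsAt A P := by
  have h1U : (1 : F) ∈ unitsAt A P := one_mem _
  have h1 : l0 ∈ S.1 := by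
    by_contra hn
    have h2 := h l0
    rw [projS, if_neg hn, hl0] at h2
    exact h2 h1U
  have h3 := h l0
  rw [projS, if_pos h1, hl0] at h3
  set o := S.1.min' S.nonempty with ho
  have hou : u o ∈ unitsAt A P := by
    by_contra hn
    have h4 := add_not_mem_unitsAt h3 hn (A.sub_mem A.one_mem (hu o)) (hu o)
    rw [sub_add_cancel] at h4
    exact h4 h1U
  refine ⟨h1, fun i => ⟨fun hi => ?_, fun hi => ?_⟩⟩
  · by_contra hn
    have h4 := h i
    rw [projS, if_pos hi, ← ho] at h4
    have h5 := neg_not_mem_unitsAt (A.sub_mem (hu i) (hu o)) h4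
    have h6 := add_not_mem_unitsAt h5 hn (A.neg_mem (A.sub_mem (hu i) (hu o))) (hu i)
    apply h6
    convert hou using 1
    ring
  · by_contra hn
    have h4 := h i
    rw [projS, if_neg hn] at h4
    exact h4 hi

/-- **Local coordinates.** -/
theorem exists_local_coordinates (A : Subalgebra k F) (P : Ideal A) [P.IsPrime] (b : Fin 5 → F)
    (hb0 : b 0 = 1) (l0 : Fin 5) (l : OddSet → Fin 5) (hl0 : b l0 ≠ 0)
    (hl : ∀ S, projS S b (l S) ≠ 0) (h0 : ∀ m, b m / b l0 ∈ A)
    (hS : ∀ S m, projS S b m / projS S b (l S) ∈ A) :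
    ∃ z : Fin 4 → F, (∀ i, z i ∈ A) ∧ (∀ m, b m ∈ IntermediateField.adjoin k (Set.range z)) ∧
      (∀ m, b m / b l0 ∈ locAt A P (Algebra.adjoin k (Set.range z))) ∧
      ∀ S m, projS S b m / projS S b (l S) ∈ locAt A P (Algebra.adjoin k (Set.range z)) := by
  set u : Fin 5 → F := fun i => b i / b l0 with hu
  have huA : ∀ m, u m ∈ A := h0
  have hul : u l0 = 1 := div_self hl0
  have hpu : ∀ S m, projS S u m = projS S b m / b l0 := fun S m => projS_div_c S b (b l0) m
  -- units among the coordinates of the projections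
  have hunit : ∀ S, (∃ m, projS S u m ∈ unitsAt A P) → projS S u (l S) ∈ unitsAt A P := by
    rintro S ⟨m, hm⟩
    have e : projS S u m = projS S b m / projS S b (l S) * projS S u (l S) := by
      rw [hpu, hpu]
      field_simp [hl S]
    rw [e] at hm
    exact right_mem_unitsAt (hS S m) (projS_mem A S u huA _) hm
  -- the final step
  have final : ∀ Z : Subalgebra k F, (∀ m, u m ∈ Z) → ∀ S, (∃ m, projS S u m ∈ unitsAt A P) →
      ∀ m, projS S b m / projS S b (l S) ∈ locAt A P Z := by
    intro Z hZ S hSu m
    refine ⟨projS S u (l S), hunit S hSu, projS_mem Z S u hZ _, ?_⟩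
    have e : projS S b m / projS S b (l S) * projS S u (l S) = projS S u m := by
      rw [hpu, hpu]
      field_simp [hl S]
    rw [e]
    exact projS_mem Z S u hZ _
  have hfield : ∀ z : Fin 4 → F, (∀ m, u m ∈ Algebra.adjoin k (Set.range z)) →
      ∀ m, b m ∈ IntermediateField.adjoin k (Set.range z) := by
    intro z hz m
    have hz' : ∀ m, u m ∈ IntermediateField.adjoin k (Set.range z) := fun m =>
      IntermediateField.algebra_adjoin_le_adjoin k _ (hz m)
    have h1 := IntermediateField.inv_mem _ (hz' 0)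
    have h2 : (u 0)⁻¹ = b l0 := by
      rw [hu]; beta_reduce
      rw [hb0, one_div, inv_inv]
    rw [h2] at h1
    have h3 := mul_mem (hz' m) h1
    rwa [hu, div_mul_cancel₀ _ hl0] at h3
  by_cases hcase : ∀ S, ∃ m, projS S u m ∈ unitsAt A P
  · -- away from the centres
    set z : Fin 4 → F := fun i => u (l0.succAbove i) with hz
    have hZ : ∀ m, u m ∈ Algebra.adjoin k (Set.range z) := by
      intro m
      by_cases hm : m = l0
      · rw [hm, hul]; exact one_mem _
      · obtain ⟨i, rfl⟩ := Fin.exists_succAbove_eq hm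
        exact Algebra.subset_adjoin ⟨i, rfl⟩
    exact ⟨z, fun i => huA _, hfield z hZ, fun m => le_locAt _ _ _ (hZ m),
      fun S => final _ hZ S (hcase S)⟩
  · -- over a centre
    push Not at hcase
    obtain ⟨S0, hS0⟩ := hcase
    obtain ⟨hlS, hiff⟩ := mem_iff_of_centre A P u huA l0 hul S0 hS0
    have hothers : ∀ S, S ≠ S0 → ∃ m, projS S u m ∈ unitsAt A P := by
      intro S hne
      by_contra hn
      push Not at hn
      obtain ⟨-, hiff'⟩ := mem_iff_of_centre A P u huA l0 hul S hn
      apply hne
      apply Subtype.ext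
      ext i
      rw [hiff, hiff']
    set o := S0.1.min' S0.nonempty with ho
    have hoS : o ∈ S0.1 := S0.1.min'_mem _
    have hpo : ∀ v : Fin 5 → F, projS S0 v o = 0 := by
      intro v
      rw [projS, if_pos hoS, ← ho, sub_self]
    have hlo : l S0 ≠ o := by
      intro h
      have := hl S0
      rw [h, hpo] at this
      exact this rfl
    set ζ := projS S0 u (l S0) with hζ
    set z : Fin 4 → F := fun i => if o.succAbove i = l S0 then ζ else
      projS S0 b (o.succAbove i) / projS S0 b (l S0) with hz
    set Z := Algebra.adjoin k (Set.range z) with hZdef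
    have hzZ : ∀ i, z i ∈ Z := fun i => Algebra.subset_adjoin ⟨i, rfl⟩
    have hζZ : ζ ∈ Z := by
      obtain ⟨i, hi⟩ := Fin.exists_succAbove_eq hlo
      have h1 := hzZ i
      rw [hz] at h1
      beta_reduce at h1
      rwa [if_pos hi] at h1
    have hρZ : ∀ m, projS S0 b m / projS S0 b (l S0) ∈ Z := by
      intro m
      by_cases hm : m = o
      · rw [hm, hpo, zero_div]; exact zero_mem _
      · obtain ⟨i, rfl⟩ := Fin.exists_succAbove_eq hm
        by_cases hi : o.succAbove i = l S0
        · rw [hi, div_self (hl S0)]; exact one_mem _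
        · have h1 := hzZ i
          rw [hz] at h1
          beta_reduce at h1
          rwa [if_neg hi] at h1
    have hpZ : ∀ m, projS S0 u m ∈ Z := by
      intro m
      have e : projS S0 u m = projS S0 b m / projS S0 b (l S0) * ζ := by
        rw [hζ, hpu, hpu]
        field_simp [hl S0]
      rw [e]
      exact mul_mem (hρZ m) hζZ
    have hoZ : u o ∈ Z := by
      have h1 := hpZ l0
      rw [projS, if_pos hlS, ← ho, hul] at h1
      have h2 := sub_mem (one_mem Z) h1
      rwa [sub_sub_cancel] at h2
    have hZ : ∀ m, u m ∈ Z := by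
      intro m
      have h1 := hpZ m
      rw [projS] at h1
      split_ifs at h1 with hm
      · have h2 := add_mem h1 hoZ
        rwa [← ho, sub_add_cancel] at h2
      · exact h1
    refine ⟨z, fun i => ?_, hfield z hZ, fun m => le_locAt _ _ _ (hZ m), fun S m => ?_⟩
    · rw [hz]
      beta_reduce
      split_ifs
      · exact projS_mem A S0 u huA _
      · exact hS S0 _
    · by_cases hSS : S = S0
      · subst hSS
        exact le_locAt _ _ _ (hρZ m)
      · exact final Z hZ S (hothers S hSS) m

end

end NefK
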