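import Mathlib

/-! A local criterion for being integrally closed in a field. -/

namespace NefK

open Polynomial

section

variable {k F : Type*} [Field k] [Field F] [Algebra k F]

/-- Clearing denominators in an integral equation. -/
theorem isIntegral_mul_of_denominators (A B : Subalgebra k F) (z : F) (hz : IsIntegral A z)
    (U : Submonoid F) (H : ∀ a ∈ A, ∃ h ∈ U, h ∈ B ∧ a * h ∈ B) :
    ∃ h ∈ U, h ∈ B ∧ IsIntegral B (h * z) := by
  classical
  obtain ⟨p, hp, hpz⟩ := hz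
  set q : F[X] := p.map (algebraMap A F) with hq
  have hqm : q.Monic := hp.map _
  have hqz : q.eval z = 0 := by rw [hq, eval_map, hpz]
  have hqc : ∀ i, q.coeff i ∈ A := fun i => by rw [hq, coeff_map]; exact (p.coeff i).2
  choose h hU hB hc using fun i => H _ (hqc i)
  set N := q.natDegree with hN
  set h0 := ∏ i ∈ Finset.range N, h i with hh0
  have h0U : h0 ∈ U := Submonoid.prod_mem _ fun i _ => hU i
  have h0B : h0 ∈ B := Subalgebra.prod_mem _ fun i _ => hB i
  refine ⟨h0, h0U, h0B, ?_⟩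
  have hroot : (scaleRoots q h0).eval (h0 * z) = 0 := by
    have := scaleRoots_eval₂_eq_zero (RingHom.id F) (p := q) (r := z) (s := h0)
      (by rw [eval₂_id]; exact hqz)
    rwa [eval₂_id, RingHom.id_apply] at this
  have hm : (scaleRoots q h0).Monic := (monic_scaleRoots_iff h0).mpr hqm
  have hN0 : N ≠ 0 := by
    intro h1
    have h2 : q = 1 := eq_one_of_monic_natDegree_zero hqm h1
    rw [h2, eval_one] at hqz
    exact one_ne_zero hqz
  apply IsIntegral.of_aeval_monic_of_isIntegral_coeff (p := scaleRoots q h0) hm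
  · rwa [natDegree_scaleRoots]
  · rw [hroot]; exact isIntegral_zero
  · intro i
    have h3 : (scaleRoots q h0).coeff i ∈ B := by
      rw [coeff_scaleRoots]
      rcases lt_trichotomy i N with hi | hi | hi
      · obtain ⟨m, hm⟩ : ∃ m, N - i = m + 1 := ⟨N - i - 1, by omega⟩
        rw [← hN, hm, pow_succ', ← mul_assoc]
        refine B.mul_mem ?_ (B.pow_mem h0B m)
        rw [hh0, ← Finset.mul_prod_erase _ _ (Finset.mem_range.mpr hi), ← mul_assoc]
        exact B.mul_mem (hc i) (Subalgebra.prod_mem _ fun j _ => hB j)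
      · rw [hi, hN, hqm.coeff_natDegree, Nat.sub_self, pow_zero, mul_one]
        exact B.one_mem
      · rw [coeff_eq_zero_of_natDegree_lt hi, zero_mul]
        exact B.zero_mem
    exact isIntegral_algebraMap (R := B) (x := ⟨_, h3⟩)

/-- The multiplicative set of the elements of `A` outside the prime ideal `P`. -/
def unitsAt (A : Subalgebra k F) (P : Ideal A) [P.IsPrime] : Submonoid F :=
  P.primeCompl.map A.val

theorem mem_unitsAt {A : Subalgebra k F} {P : Ideal A} [P.IsPrime] {a : F} :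
    a ∈ unitsAt A P ↔ ∃ h : a ∈ A, (⟨a, h⟩ : A) ∉ P := by
  constructor
  · rintro ⟨b, hb, rfl⟩
    exact ⟨b.2, hb⟩
  · rintro ⟨h, hP⟩
    exact ⟨⟨a, h⟩, hP, rfl⟩

theorem mem_of_mem_unitsAt {A : Subalgebra k F} {P : Ideal A} [P.IsPrime] {a : F}
    (h : a ∈ unitsAt A P) : a ∈ A := (mem_unitsAt.mp h).1

theorem ne_zero_of_mem_unitsAt {A : Subalgebra k F} {P : Ideal A} [P.IsPrime] {a : F}
    (h : a ∈ unitsAt A P) : a ≠ 0 := by
  rintro rfl
  obtain ⟨h1, h2⟩ := mem_unitsAt.mp h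
  have h3 : (⟨0, h1⟩ : A) = 0 := rfl
  rw [h3] at h2
  exact h2 P.zero_mem

theorem left_mem_unitsAt {A : Subalgebra k F} {P : Ideal A} [P.IsPrime] {a b : F}
    (ha : a ∈ A) (hb : b ∈ A) (h : a * b ∈ unitsAt A P) : a ∈ unitsAt A P := by
  obtain ⟨h1, h2⟩ := mem_unitsAt.mp h
  refine mem_unitsAt.mpr ⟨ha, fun h3 => h2 ?_⟩
  have : (⟨a * b, h1⟩ : A) = (⟨a, ha⟩ : A) * ⟨b, hb⟩ := rfl
  rw [this]
  exact P.mul_mem_right _ h3

theorem right_mem_unitsAt {A : Subalgebra k F} {P : Ideal A} [P.IsPrime] {a b : F}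
    (ha : a ∈ A) (hb : b ∈ A) (h : a * b ∈ unitsAt A P) : b ∈ unitsAt A P := by
  rw [mul_comm] at h
  exact left_mem_unitsAt hb ha h

theorem add_not_mem_unitsAt {A : Subalgebra k F} {P : Ideal A} [P.IsPrime] {a b : F}
    (ha : a ∉ unitsAt A P) (hb : b ∉ unitsAt A P) (hA : a ∈ A) (hB : b ∈ A) :
    a + b ∉ unitsAt A P := by
  intro h
  obtain ⟨h1, h2⟩ := mem_unitsAt.mp h
  rw [mem_unitsAt] at ha hb
  push Not at ha hb
  apply h2
  have : (⟨a + b, h1⟩ : A) = (⟨a, hA⟩ : A) + ⟨b, hB⟩ := rfl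
  rw [this]
  exact P.add_mem (ha hA) (hb hB)

/-- The localisation, in `F`, of `B` at the elements outside `P`. -/
def locAt (A : Subalgebra k F) (P : Ideal A) [P.IsPrime] (B : Subalgebra k F) :
    Subalgebra k F where
  carrier := {a | ∃ h ∈ unitsAt A P, h ∈ B ∧ a * h ∈ B}
  mul_mem' := by
    rintro a b ⟨h, hU, hB, hc⟩ ⟨h', hU', hB', hc'⟩
    refine ⟨h * h', mul_mem hU hU', B.mul_mem hB hB', ?_⟩
    have : a * b * (h * h') = (a * h) * (b * h') := by ring
    rw [this]
    exact B.mul_mem hc hc'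
  add_mem' := by
    rintro a b ⟨h, hU, hB, hc⟩ ⟨h', hU', hB', hc'⟩
    refine ⟨h * h', mul_mem hU hU', B.mul_mem hB hB', ?_⟩
    have : (a + b) * (h * h') = (a * h) * h' + (b * h') * h := by ring
    rw [this]
    exact B.add_mem (B.mul_mem hc hB') (B.mul_mem hc' hB)
  algebraMap_mem' := fun r =>
    ⟨1, one_mem _, B.one_mem, by rw [mul_one]; exact B.algebraMap_mem r⟩

theorem mem_locAt {A : Subalgebra k F} {P : Ideal A} [P.IsPrime] {B : Subalgebra k F} {a : F} :
    a ∈ locAt A P B ↔ ∃ h ∈ unitsAt A P, h ∈ B ∧ a * h ∈ B := Iff.rfl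

theorem le_locAt (A : Subalgebra k F) (P : Ideal A) [P.IsPrime] (B : Subalgebra k F) :
    B ≤ locAt A P B := fun a ha => ⟨1, one_mem _, B.one_mem, by rwa [mul_one]⟩

theorem inv_mem_locAt {A : Subalgebra k F} {P : Ideal A} [P.IsPrime] {B : Subalgebra k F}
    {a : F} (ha : a ∈ locAt A P B) (hU : a ∈ unitsAt A P) : a⁻¹ ∈ locAt A P B := by
  obtain ⟨h, hhU, hB, hc⟩ := ha
  refine ⟨a * h, mul_mem hU hhU, hc, ?_⟩
  rwa [inv_mul_cancel_left₀ (ne_zero_of_mem_unitsAt hU)]

/-- **Local criterion.** -/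
theorem mem_of_isIntegral_of_local (A : Subalgebra k F)
    (H : ∀ (P : Ideal A) [P.IsPrime], ∃ B : Subalgebra k F, B ≤ A ∧
      (∀ z, IsIntegral B z → z ∈ B) ∧ A ≤ locAt A P B)
    (z : F) (hz : IsIntegral A z) : z ∈ A := by
  let J : Ideal A :=
    { carrier := {a | (a : F) * z ∈ A}
      add_mem' := by
        intro a b ha hb
        have : ((a + b : A) : F) * z = a * z + b * z := by push_cast; ring
        rw [Set.mem_ofPred_eq, this]
        exact A.add_mem ha hb
      zero_mem' := by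
        rw [Set.mem_ofPred_eq, ZeroMemClass.coe_zero, zero_mul]
        exact A.zero_mem
      smul_mem' := by
        intro c a ha
        have : ((c • a : A) : F) * z = c * (a * z) := by
          rw [smul_eq_mul, MulMemClass.coe_mul, mul_assoc]
        rw [Set.mem_ofPred_eq, this]
        exact A.mul_mem c.2 ha }
  by_contra hzA
  have hJ : J ≠ ⊤ := by
    intro h
    have h1 : (1 : A) ∈ J := by rw [h]; trivial
    have h2 : ((1 : A) : F) * z ∈ A := h1
    rw [OneMemClass.coe_one, one_mul] at h2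
    exact hzA h2
  obtain ⟨P, hP, hJP⟩ := Ideal.exists_le_maximal J hJ
  have hprime : P.IsPrime := hP.isPrime
  obtain ⟨B, hBA, hBn, hloc⟩ := H P
  obtain ⟨h, hU, hB, hint⟩ := isIntegral_mul_of_denominators A B z hz (unitsAt A P)
    (fun a ha => hloc ha)
  obtain ⟨hA, hnP⟩ := mem_unitsAt.mp hU
  exact hnP (hJP (hBA (hBn _ hint)))

end

end NefK
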