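import Pool.Agent.Lib_helper36.NefK.Cyclic
import Pool.Agent.Lib_helper36.NefK.LocalGlobal

/-! The affine charts of the fibration `Y → X`. -/

namespace NefK

open Polynomial

section

variable {k F : Type} [Field k] [Field F] [Algebra k F]

/-- Six elements over which `F` is algebraic are algebraically independent. -/
theorem algebraicIndependent_of_gen (htr : 6 ≤ Algebra.trdeg k F) {ι : Type} [Fintype ι]
    (hι : Fintype.card ι = 6) (t : ι → F) (S : Set F)
    (hgen : IntermediateField.adjoin k S = ⊤)
    (hS : ∀ x ∈ S, IsAlgebraic (Algebra.adjoin k (Set.range t)) x) :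
    AlgebraicIndependent k t := by
  have halg : Algebra.IsAlgebraic (Algebra.adjoin k (Set.range t)) F := by
    refine ⟨fun x => ?_⟩
    have hx : x ∈ IntermediateField.adjoin k S := by rw [hgen]; trivial
    induction hx using IntermediateField.adjoin_induction with
    | mem x hx => exact hS x hx
    | algebraMap x =>
      have : algebraMap k F x = algebraMap (Algebra.adjoin k (Set.range t)) F
          (algebraMap k _ x) := rfl
      rw [this]
      exact isAlgebraic_algebraMap _
    | add x y _ _ hx hy => exact hx.add hy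
    | inv x _ hx => exact hx.inv
    | mul x y _ _ hx hy => exact hx.mul hy
  have h := Algebra.IsAlgebraic.isTranscendenceBasis_of_le_trdeg_of_finite k t
    (by rw [Cardinal.mk_fintype, hι]; exact_mod_cast htr)
  exact h.1

/-- **Cyclic charts.** -/
theorem chart_normal_cyclic [CharZero k] (htr : 6 ≤ Algebra.trdeg k F) {ι : Type} [Fintype ι]
    (hι : Fintype.card ι = 6) (t : ι → F) (ω : F) (G : MvPolynomial ι k) (hG : Squarefree G)
    (hG0 : G ≠ 0) (hGu : ¬ IsUnit G) (hω : ω ^ 4 = MvPolynomial.aeval t G)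
    (hgen : IntermediateField.adjoin k (Set.range t ∪ {ω}) = ⊤)
    (B : Subalgebra k F) (hB : B = Algebra.adjoin k (Set.range t ∪ {ω}))
    (x : F) (hx : IsIntegral B x) : x ∈ B := by
  have hchar : CharZero F := charZero_of_injective_algebraMap (algebraMap k F).injective
  have hω1 : MvPolynomial.aeval t G ∈ Algebra.adjoin k (Set.range t) := by
    rw [Algebra.adjoin_range_eq_range_aeval]
    exact ⟨G, rfl⟩
  have hωalg : IsAlgebraic (Algebra.adjoin k (Set.range t)) ω := by
    have : IsIntegral (Algebra.adjoin k (Set.range t)) ω := by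
      refine ⟨X ^ 4 - C ⟨_, hω1⟩, monic_X_pow_sub_C _ (by norm_num), ?_⟩
      rw [eval₂_sub, eval₂_pow, eval₂_X, eval₂_C, hω]
      exact sub_self _
    exact this.isAlgebraic
  have hind : AlgebraicIndependent k t := by
    apply algebraicIndependent_of_gen htr hι t _ hgen
    rintro y (⟨i, rfl⟩ | hy)
    · exact isAlgebraic_algebraMap (⟨t i, Algebra.subset_adjoin ⟨i, rfl⟩⟩ :
        Algebra.adjoin k (Set.range t))
    · rw [Set.mem_singleton_iff] at hy
      rw [hy]; exact hωalg
  let _ : Algebra (MvPolynomial ι k) F := (MvPolynomial.aeval t).toRingHom.toAlgebra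
  have hmap : ∀ P : MvPolynomial ι k, algebraMap (MvPolynomial ι k) F P =
      MvPolynomial.aeval t P := fun _ => rfl
  have hfaith : FaithfulSMul (MvPolynomial ι k) F :=
    (faithfulSMul_iff_algebraMap_injective _ _).mpr hind
  have hRB : ∀ P : MvPolynomial ι k, algebraMap (MvPolynomial ι k) F P ∈ B := by
    intro P
    rw [hmap, hB]
    have h1 : MvPolynomial.aeval t P ∈ Algebra.adjoin k (Set.range t) := by
      rw [Algebra.adjoin_range_eq_range_aeval]
      exact ⟨P, rfl⟩
    exact Algebra.adjoin_mono Set.subset_union_left h1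
  have hωB : ω ∈ B := by
    rw [hB]
    exact Algebra.subset_adjoin (Or.inr rfl)
  have hωint : IsIntegral (MvPolynomial ι k) ω := by
    refine ⟨X ^ 4 - C G, monic_X_pow_sub_C _ (by norm_num), ?_⟩
    rw [eval₂_sub, eval₂_pow, eval₂_X, eval₂_C, hω, hmap]
    exact sub_self _
  have hBint : ∀ b ∈ B, IsIntegral (MvPolynomial ι k) b := by
    intro b hb
    rw [hB] at hb
    induction hb using Algebra.adjoin_induction with
    | mem y hy =>
      rcases hy with ⟨i, rfl⟩ | hy
      · have : t i = algebraMap (MvPolynomial ι k) F (MvPolynomial.X i) := by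
          rw [hmap, MvPolynomial.aeval_X]
        rw [this]
        exact isIntegral_algebraMap
      · rw [Set.mem_singleton_iff] at hy
        rw [hy]; exact hωint
    | algebraMap r =>
      have : algebraMap k F r = algebraMap (MvPolynomial ι k) F (MvPolynomial.C r) := by
        rw [hmap, MvPolynomial.aeval_C]
      rw [this]
      exact isIntegral_algebraMap
    | add y z _ _ hy hz => exact hy.add hz
    | mul y z _ _ hy hz => exact hy.mul hz
  have hxint : IsIntegral (MvPolynomial ι k) x := by
    obtain ⟨p, hp, hpx⟩ := hx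
    apply IsIntegral.of_aeval_monic_of_isIntegral_coeff (p := p.map (algebraMap B F)) (hp.map _)
    · intro h0
      rw [hp.natDegree_map] at h0
      rw [eq_one_of_monic_natDegree_zero hp h0, eval₂_one] at hpx
      exact one_ne_zero hpx
    · rw [eval_map, hpx]
      exact isIntegral_zero
    · intro i
      rw [coeff_map]
      exact hBint _ (p.coeff i).2
  have h2 : IsUnit (2 : MvPolynomial ι k) := by
    have : (2 : MvPolynomial ι k) = MvPolynomial.C 2 := by rw [map_ofNat]
    rw [this]
    exact (isUnit_iff_ne_zero.mpr (two_ne_zero : (2 : k) ≠ 0)).map MvPolynomial.C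
  have hx2 := cyclic_normal h2 ω G hG hG0 hGu (by rw [hω, hmap]) ?_ x hxint
  · clear hxint hx
    induction hx2 using Algebra.adjoin_induction with
    | mem y hy =>
      rw [Set.mem_singleton_iff] at hy
      rw [hy]; exact hωB
    | algebraMap r => exact hRB r
    | add y z _ _ hy hz => exact B.add_mem hy hz
    | mul y z _ _ hy hz => exact B.mul_mem hy hz
  · intro E hE hωE
    have h3 : (⊤ : IntermediateField k F) ≤ E.toIntermediateField (fun r => by
        have : algebraMap k F r = algebraMap (MvPolynomial ι k) F (MvPolynomial.C r) := by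
          rw [hmap, MvPolynomial.aeval_C]
        rw [this]
        exact hE _) := by
      rw [← hgen, IntermediateField.adjoin_le_iff]
      rintro y (⟨i, rfl⟩ | hy)
      · have : t i = algebraMap (MvPolynomial ι k) F (MvPolynomial.X i) := by
          rw [hmap, MvPolynomial.aeval_X]
        rw [this]
        exact hE _
      · rw [Set.mem_singleton_iff] at hy
        rw [hy]; exact hωE
    rw [eq_top_iff]
    intro y _
    exact h3 (show y ∈ (⊤ : IntermediateField k F) from trivial)

/-! ### Squarefree polynomials -/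

theorem linear_irreducible {ι : Type} (P : MvPolynomial ι k)
    (hdeg : P.totalDegree = 1) : Irreducible P := by
  apply MvPolynomial.irreducible_of_totalDegree_eq_one hdeg
  intro x hx
  by_contra h
  have hx0 : x = 0 := by
    by_contra h1
    exact h (isUnit_iff_ne_zero.mpr h1)
  have hP : P = 0 := by
    ext m
    have := hx m
    rw [hx0, zero_dvd_iff] at this
    rw [this, MvPolynomial.coeff_zero]
  rw [hP, MvPolynomial.totalDegree_zero] at hdeg
  exact zero_ne_one hdeg

theorem totalDegree_add_X {ι : Type} [DecidableEq ι] (i : ι) (Q : MvPolynomial ι k)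
    (hQ : Q.totalDegree ≤ 1) (hc : Q.coeff (Finsupp.single i 1) ≠ -1) :
    (Q + MvPolynomial.X i).totalDegree = 1 := by
  apply le_antisymm
  · refine (MvPolynomial.totalDegree_add _ _).trans (max_le hQ ?_)
    rw [MvPolynomial.totalDegree_X]
  · have h1 : Finsupp.single i 1 ∈ (Q + MvPolynomial.X i).support := by
      rw [MvPolynomial.mem_support_iff, MvPolynomial.coeff_add, MvPolynomial.coeff_X, if_pos rfl]
      intro h
      exact hc (eq_neg_of_add_eq_zero_left h)
    have h2 := MvPolynomial.le_totalDegree h1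
    rwa [Finsupp.sum_single_index rfl] at h2

theorem not_dvd_of_eval {ι : Type} {P Q : MvPolynomial ι k} (e : ι → k)
    (hP : MvPolynomial.eval e P = 0) (hQ : MvPolynomial.eval e Q ≠ 0) : ¬ P ∣ Q := by
  rintro ⟨R, rfl⟩
  rw [map_mul, hP, zero_mul] at hQ
  exact hQ rfl

theorem squarefree_mul_of_irreducible {ι : Type} {p q : MvPolynomial ι k} (hp : Irreducible p)
    (hq : Squarefree q) (h : ¬ p ∣ q) : Squarefree (p * q) :=
  squarefree_mul_iff.mpr ⟨hp.isRelPrime_iff_not_dvd.mpr h, hp.squarefree, hq⟩

/-- `s (1 + s) τ` is squarefree. -/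
theorem squarefree_G1 [CharZero k] (ι : Type) [DecidableEq ι] (i j : ι) (hij : i ≠ j) :
    Squarefree (MvPolynomial.X i * (1 + MvPolynomial.X i) * MvPolynomial.X j :
      MvPolynomial ι k) := by
  have h1 : Irreducible (1 + MvPolynomial.X i : MvPolynomial ι k) := by
    apply linear_irreducible
    apply totalDegree_add_X
    · rw [MvPolynomial.totalDegree_one]; norm_num
    · rw [MvPolynomial.coeff_one, if_neg]
      · norm_num
      · intro h
        have := congrArg (fun f => f i) h
        simp at this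
  have h2 : Squarefree (MvPolynomial.X i * (1 + MvPolynomial.X i) : MvPolynomial ι k) := by
    apply squarefree_mul_of_irreducible MvPolynomial.X_prime.irreducible h1.squarefree
    apply not_dvd_of_eval (fun _ => 0) <;> simp
  rw [mul_comm]
  apply squarefree_mul_of_irreducible MvPolynomial.X_prime.irreducible h2
  apply not_dvd_of_eval (Function.update (fun _ => 1) j 0)
  · simp
  · have h3 : Function.update (fun _ => (1 : k)) j 0 i = 1 := by
      rw [Function.update_of_ne hij]
    simp only [map_mul, map_add, map_one, MvPolynomial.eval_X, h3]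
    norm_num

/-- `α β (α + β)` is squarefree. -/
theorem squarefree_G2 [CharZero k] (ι : Type) [DecidableEq ι] (i j : ι) (hij : i ≠ j) :
    Squarefree (MvPolynomial.X i * MvPolynomial.X j * (MvPolynomial.X i + MvPolynomial.X j) :
      MvPolynomial ι k) := by
  have h1 : Irreducible (MvPolynomial.X i + MvPolynomial.X j : MvPolynomial ι k) := by
    apply linear_irreducible
    apply totalDegree_add_X
    · rw [MvPolynomial.totalDegree_X]
    · rw [MvPolynomial.coeff_X, if_neg]
      · norm_num
      · intro h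
        exact hij (Finsupp.single_left_injective one_ne_zero h)
  have h2 : Squarefree (MvPolynomial.X j * (MvPolynomial.X i + MvPolynomial.X j) :
      MvPolynomial ι k) := by
    apply squarefree_mul_of_irreducible MvPolynomial.X_prime.irreducible h1.squarefree
    apply not_dvd_of_eval (Function.update (fun _ => 1) j 0)
    · simp
    · have h3 : Function.update (fun _ => (1 : k)) j 0 i = 1 := by
        rw [Function.update_of_ne hij]
      simp only [map_add, MvPolynomial.eval_X, h3, Function.update_self]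
      norm_num
  rw [mul_assoc]
  apply squarefree_mul_of_irreducible MvPolynomial.X_prime.irreducible h2
  apply not_dvd_of_eval (Function.update (fun _ => 1) i 0)
  · simp
  · have h3 : Function.update (fun _ => (1 : k)) i 0 j = 1 := by
      rw [Function.update_of_ne hij.symm]
    simp only [map_mul, map_add, MvPolynomial.eval_X, h3, Function.update_self]
    norm_num

/-- Integrality over a ring of polynomials inside `F`. -/
theorem mem_adjoin_of_isIntegral {ι : Type} [Fintype ι] (t : ι → F)
    (hind : AlgebraicIndependent k t) (hgen : IntermediateField.adjoin k (Set.range t) = ⊤)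
    (x : F) (hx : IsIntegral (Algebra.adjoin k (Set.range t)) x) :
    x ∈ Algebra.adjoin k (Set.range t) := by
  let _ : Algebra (MvPolynomial ι k) F := (MvPolynomial.aeval t).toRingHom.toAlgebra
  have hmap : ∀ P : MvPolynomial ι k, algebraMap (MvPolynomial ι k) F P =
      MvPolynomial.aeval t P := fun _ => rfl
  have hfaith : FaithfulSMul (MvPolynomial ι k) F :=
    (faithfulSMul_iff_algebraMap_injective _ _).mpr hind
  have hfrac : IsFractionRing (MvPolynomial ι k) F := by
    refine IsFractionRing.of_field _ _ fun x => ?_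
    have hx : x ∈ IntermediateField.adjoin k (Set.range t) := by rw [hgen]; trivial
    rw [IntermediateField.mem_adjoin_range_iff] at hx
    obtain ⟨r, s, hrs⟩ := hx
    exact ⟨r, s, hrs⟩
  have hxint : IsIntegral (MvPolynomial ι k) x := by
    obtain ⟨p, hp, hpx⟩ := hx
    apply IsIntegral.of_aeval_monic_of_isIntegral_coeff
      (p := p.map (algebraMap (Algebra.adjoin k (Set.range t)) F)) (hp.map _)
    · intro h0
      rw [hp.natDegree_map] at h0
      rw [eq_one_of_monic_natDegree_zero hp h0, eval₂_one] at hpx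
      exact one_ne_zero hpx
    · rw [eval_map, hpx]
      exact isIntegral_zero
    · intro i
      rw [coeff_map]
      have h1 : ∀ y ∈ Algebra.adjoin k (Set.range t), ∃ P : MvPolynomial ι k, MvPolynomial.aeval t P = y := by
        intro y hy
        rw [Algebra.adjoin_range_eq_range_aeval] at hy
        exact hy
      obtain ⟨P, hP⟩ := h1 _ (p.coeff i).2
      have h2 : algebraMap (Algebra.adjoin k (Set.range t)) F (p.coeff i) =
          algebraMap (MvPolynomial ι k) F P := hP.symm
      rw [h2]
      exact isIntegral_algebraMap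
  obtain ⟨P, hP⟩ := IsIntegrallyClosed.isIntegral_iff.mp hxint
  rw [Algebra.adjoin_range_eq_range_aeval]
  exact ⟨P, hP⟩

/-- **Charts that are localisations of polynomial rings.** -/
theorem chart_normal_loc (htr : 6 ≤ Algebra.trdeg k F) {ι : Type} [Fintype ι]
    (hι : Fintype.card ι = 6) (t : ι → F) (g : F) (hg : g ∈ Algebra.adjoin k (Set.range t))
    (hg0 : g ≠ 0) (hgen : IntermediateField.adjoin k (Set.range t) = ⊤)
    (B : Subalgebra k F) (hB : B = Algebra.adjoin k (Set.range t ∪ {g⁻¹}))
    (x : F) (hx : IsIntegral B x) : x ∈ B := by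
  have hind : AlgebraicIndependent k t := by
    apply algebraicIndependent_of_gen htr hι t _ hgen
    rintro y ⟨i, rfl⟩
    exact isAlgebraic_algebraMap (⟨t i, Algebra.subset_adjoin ⟨i, rfl⟩⟩ :
        Algebra.adjoin k (Set.range t))
  have hle : Algebra.adjoin k (Set.range t) ≤ B := by
    rw [hB]
    exact Algebra.adjoin_mono Set.subset_union_left
  have hginv : g⁻¹ ∈ B := by
    rw [hB]
    exact Algebra.subset_adjoin (Or.inr rfl)
  have hden : ∀ a ∈ B, ∃ h ∈ Submonoid.powers g, h ∈ Algebra.adjoin k (Set.range t) ∧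
      a * h ∈ Algebra.adjoin k (Set.range t) := by
    intro a ha
    rw [hB] at ha
    induction ha using Algebra.adjoin_induction with
    | mem y hy =>
      rcases hy with hy | hy
      · exact ⟨1, one_mem _, one_mem _, by rw [mul_one]; exact Algebra.subset_adjoin hy⟩
      · rw [Set.mem_singleton_iff] at hy
        refine ⟨g, Submonoid.mem_powers g, hg, ?_⟩
        rw [hy, inv_mul_cancel₀ hg0]
        exact one_mem _
    | algebraMap r =>
      exact ⟨1, one_mem _, one_mem _, by rw [mul_one]; exact Subalgebra.algebraMap_mem _ r⟩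
    | add y z _ _ hy hz =>
      obtain ⟨h, h1, h2, h3⟩ := hy
      obtain ⟨h', h1', h2', h3'⟩ := hz
      refine ⟨h * h', mul_mem h1 h1', mul_mem h2 h2', ?_⟩
      have : (y + z) * (h * h') = (y * h) * h' + (z * h') * h := by ring
      rw [this]
      exact add_mem (mul_mem h3 h2') (mul_mem h3' h2)
    | mul y z _ _ hy hz =>
      obtain ⟨h, h1, h2, h3⟩ := hy
      obtain ⟨h', h1', h2', h3'⟩ := hz
      refine ⟨h * h', mul_mem h1 h1', mul_mem h2 h2', ?_⟩
      have : (y * z) * (h * h') = (y * h) * (z * h') := by ring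
      rw [this]
      exact mul_mem h3 h3'
  obtain ⟨h, hU, -, hint⟩ := isIntegral_mul_of_denominators B (Algebra.adjoin k (Set.range t)) x hx
    (Submonoid.powers g) hden
  obtain ⟨n, rfl⟩ := hU
  have h1 := hle (mem_adjoin_of_isIntegral t hind hgen _ hint)
  have h2 := B.mul_mem (B.pow_mem hginv n) h1
  rwa [← mul_assoc, ← mul_pow, inv_mul_cancel₀ hg0, one_pow, one_mul] at h2

/-- The coordinates `p, q, w, T` of the fibre. -/
def fib (s ω : F) : Fin 4 → F := ![s, 1, ω, ω ^ 4 / (s * (1 + s))]

/-- The coordinate ring of an affine chart of `Y` over a chart of `X` with coordinates `z`. -/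
def fibRing (k : Type) {F : Type} [Field k] [Field F] [Algebra k F] (z : Fin 4 → F) (s ω : F)
    (e : Fin 4) : Subalgebra k F :=
  Algebra.adjoin k (Set.range z ∪ Set.range fun e' => fib s ω e' / fib s ω e)

theorem z_mem_fibRing (z : Fin 4 → F) (s ω : F) (e : Fin 4) (i : Fin 4) :
    z i ∈ fibRing k z s ω e := Algebra.subset_adjoin (Or.inl ⟨i, rfl⟩)

theorem div_mem_fibRing (z : Fin 4 → F) (s ω : F) (e e' : Fin 4) :
    fib s ω e' / fib s ω e ∈ fibRing k z s ω e := Algebra.subset_adjoin (Or.inr ⟨e', rfl⟩)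

theorem fibRing_eq (z : Fin 4 → F) (s ω : F) (e : Fin 4) (a b c : F)
    (h1 : ∀ e', fib s ω e' / fib s ω e = 1 ∨ fib s ω e' / fib s ω e = a ∨
      fib s ω e' / fib s ω e = b ∨ fib s ω e' / fib s ω e = c)
    (ha : ∃ e', fib s ω e' / fib s ω e = a) (hb : ∃ e', fib s ω e' / fib s ω e = b)
    (hc : ∃ e', fib s ω e' / fib s ω e = c) :
    fibRing k z s ω e = Algebra.adjoin k (Set.range (Sum.elim z ![a, b]) ∪ {c}) := by
  apply le_antisymm
  · apply Algebra.adjoin_le
    rintro y (⟨i, rfl⟩ | ⟨e', rfl⟩)
    · exact Algebra.subset_adjoin (Or.inl ⟨Sum.inl i, rfl⟩)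
    · beta_reduce
      rcases h1 e' with h | h | h | h
      · rw [h]; exact one_mem _
      · rw [h]; exact Algebra.subset_adjoin (Or.inl ⟨Sum.inr 0, rfl⟩)
      · rw [h]; exact Algebra.subset_adjoin (Or.inl ⟨Sum.inr 1, rfl⟩)
      · rw [h]; exact Algebra.subset_adjoin (Or.inr rfl)
  · apply Algebra.adjoin_le
    rintro y (⟨i | i, rfl⟩ | hy)
    · exact z_mem_fibRing z s ω e i
    · fin_cases i
      · obtain ⟨e', h⟩ := ha
        change a ∈ fibRing k z s ω e
        rw [← h]; exact div_mem_fibRing z s ω e e'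
      · obtain ⟨e', h⟩ := hb
        change b ∈ fibRing k z s ω e
        rw [← h]; exact div_mem_fibRing z s ω e e'
    · rw [Set.mem_singleton_iff] at hy
      obtain ⟨e', h⟩ := hc
      rw [hy, ← h]; exact div_mem_fibRing z s ω e e'

theorem fibRing_normal [CharZero k] (htr : 6 ≤ Algebra.trdeg k F) (z : Fin 4 → F) (s ω : F)
    (hs : s ≠ 0) (hs1 : 1 + s ≠ 0) (hω : ω ≠ 0)
    (hgen : IntermediateField.adjoin k (Set.range z ∪ {s, ω}) = ⊤) (e : Fin 4)
    (x : F) (hx : IsIntegral (fibRing k z s ω e) x) : x ∈ fibRing k z s ω e := by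
  have hcard : Fintype.card (Fin 4 ⊕ Fin 2) = 6 := rfl
  have hgen' : ∀ L : IntermediateField k F, (∀ i, z i ∈ L) → s ∈ L → ω ∈ L → L = ⊤ := by
    intro L h1 h2 h3
    rw [eq_top_iff, ← hgen, IntermediateField.adjoin_le_iff]
    rintro y (⟨i, rfl⟩ | rfl | hy)
    · exact h1 i
    · exact h2
    · rw [Set.mem_singleton_iff] at hy
      rw [hy]; exact h3
  set τ := ω ^ 4 / (s * (1 + s)) with hτ
  have hτ0 : τ ≠ 0 := div_ne_zero (pow_ne_zero 4 hω) (mul_ne_zero hs hs1)
  have hrel : ω ^ 4 = s * (1 + s) * τ := by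
    rw [hτ, mul_div_cancel₀ _ (mul_ne_zero hs hs1)]
  have hf0 : fib s ω 0 = s := rfl
  have hf1 : fib s ω 1 = 1 := rfl
  have hf2 : fib s ω 2 = ω := rfl
  have hf3 : fib s ω 3 = τ := rfl
  have hG1u : ¬ IsUnit (MvPolynomial.X (Sum.inr 0) * (1 + MvPolynomial.X (Sum.inr 0)) *
      MvPolynomial.X (Sum.inr 1) : MvPolynomial (Fin 4 ⊕ Fin 2) k) := by
    intro h
    have := h.map (MvPolynomial.eval (fun _ => (0 : k)))
    simp at this
  have hG2u : ¬ IsUnit (MvPolynomial.X (Sum.inr 0) * MvPolynomial.X (Sum.inr 1) *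
      (MvPolynomial.X (Sum.inr 0) + MvPolynomial.X (Sum.inr 1)) :
        MvPolynomial (Fin 4 ⊕ Fin 2) k) := by
    intro h
    have := h.map (MvPolynomial.eval (fun _ => (0 : k)))
    simp at this
  have hmem : ∀ (L : IntermediateField k F) (t : Fin 4 ⊕ Fin 2 → F) (c : F),
      L = IntermediateField.adjoin k (Set.range t ∪ {c}) → (∀ i, t i ∈ L) ∧ c ∈ L := by
    rintro L t c rfl
    exact ⟨fun i => IntermediateField.subset_adjoin _ _ (Or.inl ⟨i, rfl⟩),
      IntermediateField.subset_adjoin _ _ (Or.inr rfl)⟩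
  fin_cases e
  · -- `p`
    refine chart_normal_cyclic htr hcard (Sum.elim z ![1 / s, τ / s]) (ω / s) _
      (squarefree_G1 _ (Sum.inr 0) (Sum.inr 1) (by decide))
      (squarefree_G1 _ (Sum.inr 0) (Sum.inr 1) (by decide)).ne_zero hG1u ?_ ?_ _
      (fibRing_eq z s ω 0 (1 / s) (τ / s) (ω / s) ?_ ⟨1, by rw [hf0, hf1]⟩
        ⟨3, by rw [hf0, hf3]⟩ ⟨2, by rw [hf0, hf2]⟩) x hx
    · simp only [map_mul, map_add, map_one, MvPolynomial.aeval_X, Sum.elim_inr,
        Matrix.cons_val_zero, Matrix.cons_val_one]
      rw [div_pow, hrel]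
      field_simp
      ring
    · obtain ⟨h1, h2⟩ := hmem _ (Sum.elim z ![1 / s, τ / s]) (ω / s) rfl
      have h3 := IntermediateField.inv_mem _ (h1 (Sum.inr 0))
      have e3 : (Sum.elim z ![1 / s, τ / s] (Sum.inr 0))⁻¹ = s := by
        change (1 / s)⁻¹ = s
        rw [one_div, inv_inv]
      rw [e3] at h3
      refine hgen' _ (fun i => h1 (Sum.inl i)) h3 ?_
      have h4 := mul_mem h2 h3
      rwa [div_mul_cancel₀ _ hs] at h4
    · intro e'
      fin_cases e'
      · left; exact div_self hs
      · right; left; rfl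
      · right; right; right; rfl
      · right; right; left; rfl
  · -- `q`
    refine chart_normal_cyclic htr hcard (Sum.elim z ![s, τ]) ω _
      (squarefree_G1 _ (Sum.inr 0) (Sum.inr 1) (by decide))
      (squarefree_G1 _ (Sum.inr 0) (Sum.inr 1) (by decide)).ne_zero hG1u ?_ ?_ _
      (fibRing_eq z s ω 1 s τ ω ?_ ⟨0, by rw [hf1, hf0, div_one]⟩
        ⟨3, by rw [hf1, hf3, div_one]⟩ ⟨2, by rw [hf1, hf2, div_one]⟩) x hx
    · simp only [map_mul, map_add, map_one, MvPolynomial.aeval_X, Sum.elim_inr,
        Matrix.cons_val_zero, Matrix.cons_val_one]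
      rw [hrel]
    · obtain ⟨h1, h2⟩ := hmem _ _ _ rfl
      exact hgen' _ (fun i => h1 (Sum.inl i)) (h1 (Sum.inr 0)) h2
    · intro e'
      rw [hf1, div_one]
      fin_cases e'
      · right; left; rfl
      · left; rfl
      · right; right; right; rfl
      · right; right; left; rfl
  · -- `w`
    have hg : s / ω * (1 / ω) * (s / ω + 1 / ω) ∈
        Algebra.adjoin k (Set.range (Sum.elim z ![s / ω, 1 / ω])) := by
      have h1 : s / ω ∈ Algebra.adjoin k (Set.range (Sum.elim z ![s / ω, 1 / ω])) :=
        Algebra.subset_adjoin ⟨Sum.inr 0, rfl⟩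
      have h2 : 1 / ω ∈ Algebra.adjoin k (Set.range (Sum.elim z ![s / ω, 1 / ω])) :=
        Algebra.subset_adjoin ⟨Sum.inr 1, rfl⟩
      exact mul_mem (mul_mem h1 h2) (add_mem h1 h2)
    have hginv : (s / ω * (1 / ω) * (s / ω + 1 / ω))⁻¹ = τ / ω := by
      have h1 : 1 + s ≠ 0 := hs1
      have h2 : s + 1 ≠ 0 := by rwa [add_comm]
      rw [hτ]
      field_simp
      ring
    refine chart_normal_loc htr hcard (Sum.elim z ![s / ω, 1 / ω]) _ hg ?_ ?_ _
      (fibRing_eq z s ω 2 (s / ω) (1 / ω) _ ?_ ⟨0, by rw [hf2, hf0]⟩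
        ⟨1, by rw [hf2, hf1]⟩ ⟨3, by rw [hf2, hf3, hginv]⟩) x hx
    · intro h
      rw [h, inv_zero] at hginv
      exact div_ne_zero hτ0 hω hginv.symm
    · have h1 : ∀ i, Sum.elim z ![s / ω, 1 / ω] i ∈ IntermediateField.adjoin k
          (Set.range (Sum.elim z ![s / ω, 1 / ω])) := fun i =>
        IntermediateField.subset_adjoin _ _ ⟨i, rfl⟩
      have h3 := IntermediateField.inv_mem _ (h1 (Sum.inr 1))
      have e3 : (Sum.elim z ![s / ω, 1 / ω] (Sum.inr 1))⁻¹ = ω := by
        change (1 / ω)⁻¹ = ω
        rw [one_div, inv_inv]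
      rw [e3] at h3
      have h2 := h1 (Sum.inr 0)
      have e2 : Sum.elim z ![s / ω, 1 / ω] (Sum.inr 0) = s / ω := rfl
      rw [e2] at h2
      refine hgen' _ (fun i => h1 (Sum.inl i)) ?_ h3
      have h4 := mul_mem h2 h3
      rwa [div_mul_cancel₀ _ hω] at h4
    · intro e'
      rw [hginv]
      fin_cases e'
      · right; left; rfl
      · right; right; left; rfl
      · left; exact div_self hω
      · right; right; right; rfl
  · -- `T`
    refine chart_normal_cyclic htr hcard (Sum.elim z ![s / τ, 1 / τ]) (ω / τ) _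
      (squarefree_G2 _ (Sum.inr 0) (Sum.inr 1) (by decide))
      (squarefree_G2 _ (Sum.inr 0) (Sum.inr 1) (by decide)).ne_zero hG2u ?_ ?_ _
      (fibRing_eq z s ω 3 (s / τ) (1 / τ) (ω / τ) ?_ ⟨0, by rw [hf3, hf0]⟩
        ⟨1, by rw [hf3, hf1]⟩ ⟨2, by rw [hf3, hf2]⟩) x hx
    · simp only [map_mul, map_add, MvPolynomial.aeval_X, Sum.elim_inr,
        Matrix.cons_val_zero, Matrix.cons_val_one]
      rw [div_pow, hrel]
      field_simp
      ring
    · obtain ⟨h1, h2⟩ := hmem _ (Sum.elim z ![s / τ, 1 / τ]) (ω / τ) rfl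
      have h3 := IntermediateField.inv_mem _ (h1 (Sum.inr 1))
      have e3 : (Sum.elim z ![s / τ, 1 / τ] (Sum.inr 1))⁻¹ = τ := by
        change (1 / τ)⁻¹ = τ
        rw [one_div, inv_inv]
      rw [e3] at h3
      have h4 := h1 (Sum.inr 0)
      have e4 : Sum.elim z ![s / τ, 1 / τ] (Sum.inr 0) = s / τ := rfl
      rw [e4] at h4
      refine hgen' _ (fun i => h1 (Sum.inl i)) ?_ ?_
      · have h5 := mul_mem h4 h3
        rwa [div_mul_cancel₀ _ hτ0] at h5
      · have h5 := mul_mem h2 h3
        rwa [div_mul_cancel₀ _ hτ0] at h5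
    · intro e'
      fin_cases e'
      · right; left; rfl
      · right; right; left; rfl
      · right; right; right; rfl
      · left; exact div_self hτ0

end

end NefK
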