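import Mathlib

/-! Normality of cyclic covers of degree four. -/

namespace NefK

open Polynomial

theorem eisenstein_four {R : Type*} [CommRing R] [IsDomain R] {G π : R} (hG : Squarefree G)
    (hπ : Prime π) (hd : π ∣ G) : (X ^ 4 - C G : R[X]).IsEisensteinAt (Ideal.span {π}) := by
  have hm : (X ^ 4 - C G : R[X]).Monic := monic_X_pow_sub_C G (by norm_num)
  have hdeg : (X ^ 4 - C G : R[X]).natDegree = 4 := natDegree_X_pow_sub_C
  refine ⟨?_, ?_, ?_⟩
  · rw [hm.leadingCoeff, Ideal.mem_span_singleton]
    exact fun h => hπ.not_isUnit (isUnit_of_dvd_one h)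
  · intro n hn
    rw [hdeg] at hn
    rw [coeff_sub, coeff_X_pow, coeff_C, if_neg (by omega), Ideal.mem_span_singleton]
    split_ifs
    · rw [zero_sub, dvd_neg]; exact hd
    · rw [sub_zero]; exact dvd_zero _
  · rw [coeff_sub, coeff_X_pow, coeff_C, if_neg (by norm_num), if_pos rfl, zero_sub,
      Ideal.span_singleton_pow, Ideal.mem_span_singleton, dvd_neg]
    intro h
    exact hπ.not_isUnit (hG π (by rwa [← sq]))

theorem irreducible_four {R : Type*} [CommRing R] [IsDomain R] {G π : R} (hG : Squarefree G)
    (hπ : Prime π) (hd : π ∣ G) : Irreducible (X ^ 4 - C G : R[X]) := by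
  have hm : (X ^ 4 - C G : R[X]).Monic := monic_X_pow_sub_C G (by norm_num)
  have hdeg : (X ^ 4 - C G : R[X]).natDegree = 4 := natDegree_X_pow_sub_C
  apply (eisenstein_four hG hπ hd).irreducible
  · rwa [Ideal.span_singleton_prime hπ.ne_zero]
  · exact hm.isPrimitive
  · rw [hdeg]; norm_num

/-- `R[ω]`, `ω ^ 4 = G` squarefree, is integrally closed. -/
theorem cyclic_normal {R F : Type*} [CommRing R] [IsDomain R] [UniqueFactorizationMonoid R]
    [Field F] [CharZero F] [Algebra R F] [FaithfulSMul R F] (h2 : IsUnit (2 : R)) (ω : F) (G : R)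
    (hG : Squarefree G) (hG0 : G ≠ 0) (hGu : ¬ IsUnit G) (hω : ω ^ 4 = algebraMap R F G)
    (hgen : ∀ E : Subfield F, (∀ r : R, algebraMap R F r ∈ E) → ω ∈ E → E = ⊤)
    (z : F) (hz : IsIntegral R z) : z ∈ Algebra.adjoin R {ω} := by
  let _ := FractionRing.liftAlgebra R F
  have htow : IsScalarTower R (FractionRing R) F := FractionRing.isScalarTower_liftAlgebra R F
  set K := FractionRing R with hK
  obtain ⟨π₀, hirr, hd₀⟩ := WfDvdMonoid.exists_irreducible_factor hGu hG0
  have hπ₀ : Prime π₀ := UniqueFactorizationMonoid.irreducible_iff_prime.mp hirr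
  have hm : (X ^ 4 - C G : R[X]).Monic := monic_X_pow_sub_C G (by norm_num)
  have hdeg : (X ^ 4 - C G : R[X]).natDegree = 4 := natDegree_X_pow_sub_C
  have hroot : aeval ω (X ^ 4 - C G : R[X]) = 0 := by
    rw [map_sub, map_pow, aeval_X, aeval_C, hω, sub_self]
  have hint : IsIntegral R ω := ⟨_, hm, by rwa [aeval_def] at hroot⟩
  have hintK : IsIntegral K ω := hint.tower_top
  have hirrK : Irreducible ((X ^ 4 - C G : R[X]).map (algebraMap R K)) :=
    (hm.irreducible_iff_irreducible_map_fraction_map).mp (irreducible_four hG hπ₀ hd₀)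
  have hminK : minpoly K ω = (X ^ 4 - C G : R[X]).map (algebraMap R K) := by
    refine (minpoly.eq_of_irreducible_of_monic hirrK ?_ (hm.map _)).symm
    rw [aeval_map_algebraMap, hroot]
  have hmin : minpoly R ω = X ^ 4 - C G := by
    have h1 := minpoly.isIntegrallyClosed_eq_field_fractions' K hint
    rw [hminK] at h1
    exact (map_injective _ (IsFractionRing.injective R K) h1).symm
  have htop : Algebra.adjoin K {ω} = ⊤ := by
    have h1 : (IntermediateField.adjoin K {ω}).toSubfield = ⊤ := by
      apply hgen
      · intro r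
        have : algebraMap R F r = algebraMap K F (algebraMap R K r) := by
          rw [← IsScalarTower.algebraMap_apply]
        rw [this]
        exact (IntermediateField.adjoin K {ω}).algebraMap_mem _
      · exact IntermediateField.mem_adjoin_simple_self K ω
    rw [← IntermediateField.adjoin_simple_toSubalgebra_of_isAlgebraic hintK.isAlgebraic]
    rw [eq_top_iff]
    intro x _
    have hx : x ∈ (IntermediateField.adjoin K {ω}).toSubfield := by rw [h1]; trivial
    exact hx
  let B : PowerBasis K F := PowerBasis.ofAdjoinEqTop hintK htop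
  have hBgen : B.gen = ω := PowerBasis.ofAdjoinEqTop_gen hintK htop
  have hfin : FiniteDimensional K F := B.finite
  have hchar : CharZero K := by
    have h1 : Function.Injective (algebraMap K F) := (algebraMap K F).injective
    refine ⟨fun a b hab => ?_⟩
    have := congrArg (algebraMap K F) hab
    rw [map_natCast, map_natCast] at this
    exact Nat.cast_injective this
  have hdim : B.dim = 4 := by
    have h1 : B.dim = (minpoly K ω).natDegree := PowerBasis.ofAdjoinEqTop_dim hintK htop
    rw [h1, hminK, hm.natDegree_map, hdeg]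
  -- the discriminant
  have hnorm : Algebra.norm K ω = algebraMap R K (-G) := by
    have h1 := Algebra.PowerBasis.norm_gen_eq_coeff_zero_minpoly B
    rw [hBgen, hdim, hminK] at h1
    rw [h1]
    simp only [Polynomial.map_sub, Polynomial.map_pow, map_X, map_C, coeff_sub, coeff_X_pow,
      coeff_C_zero, map_neg]
    norm_num
  have hdiscr : Algebra.discr K B.basis = algebraMap R K (-(256 * (-G) ^ 3)) ∨
      Algebra.discr K B.basis = algebraMap R K (256 * (-G) ^ 3) := by
    have h1 := Algebra.discr_powerBasis_eq_norm (K := K) (L := F) (pb := B)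
    have h2 : Algebra.norm K (aeval B.gen (derivative (minpoly K B.gen))) =
        algebraMap R K (256 * (-G) ^ 3) := by
      rw [hBgen, hminK]
      have h3 : aeval ω (derivative ((X ^ 4 - C G : R[X]).map (algebraMap R K))) =
          algebraMap K F 4 * ω ^ 3 := by
        have e1 : algebraMap K F 4 = algebraMap R F 4 := by
          rw [IsScalarTower.algebraMap_apply R K F]
          congr 1
          exact (map_ofNat (algebraMap R K) 4).symm
        rw [derivative_map, aeval_map_algebraMap, e1]
        simp only [derivative_sub, derivative_X_pow, derivative_C, sub_zero, map_mul, map_pow,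
          aeval_X, aeval_C]
        norm_num
      rw [h3, map_mul, map_pow, hnorm, Algebra.norm_algebraMap, B.finrank, hdim]
      rw [map_mul, map_pow, map_ofNat]
      norm_num
    rw [h2] at h1
    rcases neg_one_pow_eq_or K (Module.finrank K F * (Module.finrank K F - 1) / 2) with h4 | h4
    · right
      rw [h1, h4, one_mul]
    · left
      rw [h1, h4, neg_one_mul, map_neg]
  have h256 : ∀ x : F, IsIntegral R x → G ^ 3 • x ∈ Algebra.adjoin R ({ω} : Set F) := by
    intro x hx
    have h1 := Algebra.discr_mul_isIntegral_mem_adjoin (R := R) (K := K) (L := F) (B := B)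
      (by rw [hBgen]; exact hint) hx
    rw [hBgen] at h1
    have h3 : (256 * G ^ 3) • x ∈ Algebra.adjoin R ({ω} : Set F) := by
      have e1 : ∀ r : R, algebraMap R K r • x = r • x := fun r => algebraMap_smul K r x
      rcases hdiscr with h4 | h4
      · rw [h4, e1] at h1
        convert h1 using 2
        ring
      · rw [h4, e1] at h1
        have h5 := Subalgebra.neg_mem _ h1
        rw [← neg_smul] at h5
        convert h5 using 2
        ring
    obtain ⟨u, hu⟩ := h2
    have h6 : (256 : R) = (u : R) ^ 8 := by rw [hu]; norm_num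
    have h7 := Subalgebra.smul_mem _ h3 ((↑(u⁻¹) : R) ^ 8)
    rw [smul_smul, h6] at h7
    have h8 : (↑(u⁻¹) : R) ^ 8 * ((u : R) ^ 8 * G ^ 3) = G ^ 3 := by
      rw [← mul_assoc, ← mul_pow, Units.inv_mul, one_pow, one_mul]
    rwa [h8] at h7
  have key : ∀ a : R, a ∣ G ^ 3 → ∀ x : F, IsIntegral R x →
      a • x ∈ Algebra.adjoin R ({ω} : Set F) → x ∈ Algebra.adjoin R ({ω} : Set F) := by
    intro a
    induction a using UniqueFactorizationMonoid.induction_on_prime with
    | h₁ =>
      intro h
      exact absurd (zero_dvd_iff.mp h) (pow_ne_zero 3 hG0)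
    | h₂ a ha =>
      intro _ x _ h
      obtain ⟨u, rfl⟩ := ha
      have h1 := Subalgebra.smul_mem _ h (↑(u⁻¹) : R)
      rwa [smul_smul, Units.inv_mul, one_smul] at h1
    | h₃ a p ha hp ih =>
      intro hd x hx h
      have hpG : p ∣ G := hp.dvd_of_dvd_pow ((dvd_mul_right p a).trans hd)
      apply ih ((dvd_mul_left a p).trans hd) x hx
      have hax : IsIntegral R (a • x) := hx.smul a
      have h1 := mem_adjoin_of_smul_prime_smul_of_minpoly_isEisensteinAt (R := R) (K := K)
        (L := F) (B := B) hp (by rw [hBgen]; exact hint) hax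
        (by rw [hBgen, smul_smul]; exact h) (by rw [hBgen, hmin]; exact eisenstein_four hG hp hpG)
      rwa [hBgen] at h1
  exact key (G ^ 3) dvd_rfl z hz (h256 z hz)

end NefK
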