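import Pool.Agent.Lib_helper36.NefK.Centre

/-! The variety `Y` is normal. -/

namespace NefK

open Nef87 NefRed Finset

section

variable {k : Type} [Field k]

theorem trdeg_FY : 6 ≤ Algebra.trdeg k (FY k) := by
  have h : AlgebraicIndependent k (XF k) := by
    have h1 : (MvPolynomial.aeval (XF k) : MvPolynomial (Fin 6) k →ₐ[k] FY k) =
        IsScalarTower.toAlgHom k (MvPolynomial (Fin 6) k) (FY k) := by
      apply MvPolynomial.algHom_ext
      intro i
      rw [MvPolynomial.aeval_X]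
      rfl
    rw [AlgebraicIndependent, h1]
    exact IsFractionRing.injective (MvPolynomial (Fin 6) k) (FY k)
  have h2 := h.cardinalMk_le_trdeg
  rwa [Cardinal.mk_fin] at h2

theorem qCoef_eq_fib {F : Type} [Field F] (s w : F) (hs : s ≠ 0) (hs1 : 1 + s ≠ 0) (e : Fin 4) :
    qCoef s w e = s * (1 + s) * fib s w e := by
  fin_cases e
  · simp [qCoef, fib]; ring
  · simp [qCoef, fib]
  · simp [qCoef, fib]; ring
  · simp only [qCoef, fib]
    change w ^ 4 = s * (1 + s) * (w ^ 4 / (s * (1 + s)))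
    rw [mul_div_cancel₀ _ (mul_ne_zero hs hs1)]

theorem fib_twist {F : Type} [Field F] (s w β Q : F) (hβ : β ≠ 0) (e : Fin 4) :
    fib s w e * β ^ qE e * Q ^ qF e = β ^ 228 * fib s (w * (Q ^ 4 / β ^ 57)) e := by
  fin_cases e
  · simp [qE, qF, fib]; ring
  · simp [qE, qF, fib]
  · simp only [qE, qF, fib]
    change w * β ^ 171 * Q ^ 4 = β ^ 228 * (w * (Q ^ 4 / β ^ 57))
    field_simp
  · simp only [qE, qF, fib]
    change w ^ 4 / (s * (1 + s)) * β ^ 0 * Q ^ 16 =
      β ^ 228 * ((w * (Q ^ 4 / β ^ 57)) ^ 4 / (s * (1 + s)))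
    rw [mul_pow, div_pow, pow_zero, mul_one, ← pow_mul, ← pow_mul]
    have h1 : β ^ 228 ≠ 0 := pow_ne_zero _ hβ
    norm_num
    rw [div_mul_eq_mul_div, mul_div_assoc', mul_left_comm, mul_div_cancel₀ _ h1]

/-- **Normality.** -/
theorem isNormal_pts {F : Type} [Field F] [Algebra k F] [CharZero k]
    (htr : 6 ≤ Algebra.trdeg k F) (b : Fin 5 → F) (s w : F) (hb0 : b 0 = 1) (hs0 : s ≠ 0)
    (hs1 : 1 + s ≠ 0) (hw0 : w ≠ 0)
    (hgen : ∀ L : IntermediateField k F, (∀ i, b i ∈ L) → s ∈ L → w ∈ L → L = ⊤) :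
    IsNormal k (pts b s w) := by
  intro c hc x hx
  set A := chartRing k (pts b s w) c with hA
  set cn : Fin 4 × Fin 5 × (OddSet → Fin 5) := c none with hcn
  set l0 : Fin 5 := c (some none) with hl0
  set l : OddSet → Fin 5 := fun S => c (some (some S)) with hl
  have hgenA : ∀ j (i : Coord j), pts b s w j i / pts b s w j (c j) ∈ A := fun j i =>
    Algebra.subset_adjoin ⟨j, i, rfl⟩
  have hbl0 : b l0 ≠ 0 := hc (some none)
  have hpl : ∀ S, projS S b (l S) ≠ 0 := fun S => hc (some (some S))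
  have hc0 : pts b s w none cn ≠ 0 := hc none
  apply mem_of_isIntegral_of_local A ?_ x hx
  intro P hP
  obtain ⟨z, hzA, hzb, hz0, hzS⟩ := exists_local_coordinates A P b hb0 l0 l hbl0 hpl
    (fun m => hgenA (some none) m) (fun S m => hgenA (some (some S)) m)
  set Z := Algebra.adjoin k (Set.range z) with hZ
  set Ql : F := ∏ S, projS S b (l S) with hQl
  have hQl0 : Ql ≠ 0 := Finset.prod_ne_zero_iff.mpr fun S _ => hpl S
  set g : F := Ql ^ 4 / b l0 ^ 57 with hg
  have hg0 : g ≠ 0 := div_ne_zero (pow_ne_zero _ hQl0) (pow_ne_zero _ hbl0)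
  set ω : F := w * g with hω
  have hω0 : ω ≠ 0 := mul_ne_zero hw0 hg0
  -- the units `v`
  set v : Fin 4 × Fin 5 × (OddSet → Fin 5) → F := fun c' =>
    (b c'.2.1 / b l0) ^ qE c'.1 * ((∏ S, projS S b (c'.2.2 S)) / Ql) ^ qF c'.1 with hv
  set κ : F := s * (1 + s) * b l0 ^ 228 with hκ
  have hκ0 : κ ≠ 0 := mul_ne_zero (mul_ne_zero hs0 hs1) (pow_ne_zero _ hbl0)
  have hkey : ∀ c' : Fin 4 × Fin 5 × (OddSet → Fin 5),
      pts b s w none c' = κ * fib s ω c'.1 * v c' := by
    intro c'
    have h1 : pts b s w none c' = qCoef s w c'.1 * b c'.2.1 ^ qE c'.1 *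
      (∏ S, projS S b (c'.2.2 S)) ^ qF c'.1 := rfl
    have h2 := fib_twist s w (b l0) Ql hbl0 c'.1
    have h3 : b l0 ^ qE c'.1 ≠ 0 := pow_ne_zero _ hbl0
    have h4 : Ql ^ qF c'.1 ≠ 0 := pow_ne_zero _ hQl0
    rw [h1, qCoef_eq_fib s w hs0 hs1, hκ, hv]
    beta_reduce
    rw [mul_assoc (s * (1 + s)) (b l0 ^ 228), hω, hg, ← h2, div_pow, div_pow]
    field_simp
  have hvl : ∀ e, v (e, l0, l) = 1 := by
    intro e
    rw [hv]
    beta_reduce
    rw [div_self hbl0, ← hQl, div_self hQl0, one_pow, one_pow, mul_one]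
  have hprod : ∀ (B : Subalgebra k (F)), (∀ m, b m / b l0 ∈ B) →
      (∀ S m, projS S b m / projS S b (l S) ∈ B) → ∀ c', v c' ∈ B := by
    intro B h1 h2 c'
    rw [hv]
    beta_reduce
    refine B.mul_mem (B.pow_mem (h1 _) _) (B.pow_mem ?_ _)
    rw [hQl, ← Finset.prod_div_distrib]
    exact Subalgebra.prod_mem _ fun S _ => h2 S _
  have hvA : ∀ c', v c' ∈ A := hprod A (fun m => hgenA (some none) m)
    (fun S m => hgenA (some (some S)) m)
  have hvcn : v cn ≠ 0 := by
    intro h0
    rw [hkey, h0, mul_zero] at hc0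
    exact hc0 rfl
  have hfibcn : fib s ω cn.1 ≠ 0 := by
    intro h0
    rw [hkey, h0, mul_zero, zero_mul] at hc0
    exact hc0 rfl
  have hratio : ∀ c' : Fin 4 × Fin 5 × (OddSet → Fin 5),
      pts b s w none c' / pts b s w none cn = fib s ω c'.1 / fib s ω cn.1 * (v c' * (v cn)⁻¹) := by
    intro c'
    rw [hkey, hkey]
    field_simp
  have hvinv : (v cn)⁻¹ ∈ A := by
    have h1 := hgenA none (cn.1, l0, l)
    have h2 : pts b s w none (cn.1, l0, l) / pts b s w none (c none) = (v cn)⁻¹ := by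
      rw [← hcn, hratio, hvl, one_mul, div_self hfibcn, one_mul]
    rwa [h2] at h1
  have hvU : v cn ∈ unitsAt A P := by
    apply left_mem_unitsAt (hvA cn) hvinv
    rw [mul_inv_cancel₀ hvcn]
    exact one_mem _
  have hfibA : ∀ e', fib s ω e' / fib s ω cn.1 ∈ A := by
    intro e'
    have h1 := hgenA none (e', l0, l)
    have h2 : pts b s w none (e', l0, l) / pts b s w none (c none) =
        fib s ω e' / fib s ω cn.1 * (v cn)⁻¹ := by
      rw [← hcn, hratio, hvl, one_mul]
    rw [h2] at h1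
    have h3 := A.mul_mem h1 (hvA cn)
    rwa [mul_assoc, inv_mul_cancel₀ hvcn, mul_one] at h3
  have hZB : Z ≤ fibRing k z s ω cn.1 := Algebra.adjoin_mono Set.subset_union_left
  refine ⟨fibRing k z s ω cn.1, ?_, ?_, ?_⟩
  · apply Algebra.adjoin_le
    rintro y (⟨i, rfl⟩ | ⟨e', rfl⟩)
    · exact hzA i
    · exact hfibA e'
  · apply fibRing_normal htr z s ω hs0 hs1 hω0
    set L := IntermediateField.adjoin k (Set.range z ∪ {s, ω}) with hL
    have hsL : s ∈ L := IntermediateField.subset_adjoin _ _ (Or.inr (Or.inl rfl))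
    have hωL : ω ∈ L := IntermediateField.subset_adjoin _ _ (Or.inr (Or.inr rfl))
    have hbL : ∀ m, b m ∈ L := fun m =>
      IntermediateField.adjoin.mono k _ _ Set.subset_union_left (hzb m)
    have hpL : ∀ S m, projS S b m ∈ L := by
      intro S m
      unfold projS
      split_ifs
      · exact sub_mem (hbL _) (hbL _)
      · exact hbL _
    have hgL : g ∈ L := by
      refine div_mem (pow_mem (prod_mem fun S _ => hpL S _) _) (pow_mem (hbL _) _)
    have hwL : w ∈ L := by
      have h1 := div_mem hωL hgL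
      rwa [hω, mul_div_cancel_right₀ _ hg0] at h1
    exact hgen L hbL hsL hwL
  · have hB0 : ∀ m, b m / b l0 ∈ locAt A P (fibRing k z s ω cn.1) := fun m =>
      locAt_mono A P hZB (hz0 m)
    have hBS : ∀ S m, projS S b m / projS S b (l S) ∈ locAt A P (fibRing k z s ω cn.1) :=
      fun S m => locAt_mono A P hZB (hzS S m)
    have hvB := hprod _ hB0 hBS
    have hle : chartRing k (pts b s w) c ≤ locAt A P (fibRing k z s ω cn.1) := by
      apply Algebra.adjoin_le
      rintro y ⟨j, i, rfl⟩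
      match j, i with
      | none, c' =>
        have h1 := hratio c'
        have h2 : pts b s w none c' / pts b s w none (c none) = _ := h1
        rw [h2]
        exact mul_mem (le_locAt _ _ _ (div_mem_fibRing z s ω _ _))
          (mul_mem (hvB c') (inv_mem_locAt (hvB cn) hvU))
      | some none, m => exact hB0 m
      | some (some S), m => exact hBS S m
    exact hle

/-- **The variety `Y` is normal.** -/
theorem isNormal_genY [CharZero k] : IsNormal k (genY k) := by
  have htr := trdeg_FY (k := k)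
  have h := isNormal_pts (k := k) (F := FY k) htr (bF k) (XF k 4) (XF k 5) bF_zero (XF_ne_zero 4)
    one_add_s_ne_zero (XF_ne_zero 5) (fun L hb hs hw => by
      refine eq_top_of_XF L fun i => ?_
      fin_cases i
      · exact hb 1
      · exact hb 2
      · exact hb 3
      · exact hb 4
      · exact hs
      · exact hw)
  exact h

end

end NefK
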