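import Pool.Agent.Lib_helper87.NefK.Defs

/-! Block W of the `K_X` version of MP_3f2c61_ag: wedges of differentials. -/

namespace NefK

open scoped WithZero
open NefRed

section

variable {k F : Type} [Field k] [Field F] [Algebra k F]

/-- `z'` generates the same field as `z` and `dz' = g dz` with `|g|_v = c`. -/
def Comp (v : Place k F) {d : ℕ} (c : ℤᵐ⁰) (z z' : Fin d → F) : Prop :=
  IntermediateField.adjoin k (Set.range z') = IntermediateField.adjoin k (Set.range z) ∧
    ∃ g : F, v.val g = c ∧ wedge k z' = g • wedge k z

theorem Comp.refl (v : Place k F) {d : ℕ} (z : Fin d → F) : Comp v 1 z z :=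
  ⟨rfl, 1, map_one _, (one_smul _ _).symm⟩

theorem Comp.trans {v : Place k F} {d : ℕ} {c c' : ℤᵐ⁰} {z z' z'' : Fin d → F}
    (h : Comp v c z z') (h' : Comp v c' z' z'') : Comp v (c * c') z z'' := by
  obtain ⟨h1, g, hg, hw⟩ := h
  obtain ⟨h1', g', hg', hw'⟩ := h'
  refine ⟨h1'.trans h1, g' * g, ?_, ?_⟩
  · rw [map_mul, hg, hg', mul_comm]
  · rw [hw', hw, mul_smul]

/-- Equality of the generated fields. -/
theorem adjoin_eq_of_mem {d : ℕ} {z z' : Fin d → F}
    (h : ∀ i, z' i ∈ IntermediateField.adjoin k (Set.range z))
    (h' : ∀ i, z i ∈ IntermediateField.adjoin k (Set.range z')) :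
    IntermediateField.adjoin k (Set.range z') = IntermediateField.adjoin k (Set.range z) := by
  apply le_antisymm
  · rw [IntermediateField.adjoin_le_iff]
    rintro _ ⟨i, rfl⟩
    exact h i
  · rw [IntermediateField.adjoin_le_iff]
    rintro _ ⟨i, rfl⟩
    exact h' i

theorem mem_adjoin_range {d : ℕ} (z : Fin d → F) (i : Fin d) :
    z i ∈ IntermediateField.adjoin k (Set.range z) :=
  IntermediateField.subset_adjoin _ _ ⟨i, rfl⟩

theorem adjoin_update {d : ℕ} (z : Fin d → F) (i : Fin d) (w : F)
    (h1 : ∀ E : IntermediateField k F, z i ∈ E → w ∈ E)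
    (h2 : ∀ E : IntermediateField k F, w ∈ E → z i ∈ E) :
    IntermediateField.adjoin k (Set.range (Function.update z i w)) =
      IntermediateField.adjoin k (Set.range z) := by
  apply adjoin_eq_of_mem
  · intro j
    by_cases hj : j = i
    · subst hj
      rw [Function.update_self]
      exact h1 _ (mem_adjoin_range z j)
    · rw [Function.update_of_ne hj]
      exact mem_adjoin_range z j
  · intro j
    by_cases hj : j = i
    · subst hj
      apply h2
      have := mem_adjoin_range (k := k) (Function.update z j w) j
      rwa [Function.update_self] at this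
    · have := mem_adjoin_range (k := k) (Function.update z i w) j
      rwa [Function.update_of_ne hj] at this

theorem wedge_update {d : ℕ} (z : Fin d → F) (i : Fin d) (w g : F)
    (h : KaehlerDifferential.D k F w = g • KaehlerDifferential.D k F (z i)) :
    wedge k (Function.update z i w) = g • wedge k z := by
  unfold wedge
  have e : (fun j => KaehlerDifferential.D k F (Function.update z i w j)) =
      Function.update (fun j => KaehlerDifferential.D k F (z j)) i
        (g • KaehlerDifferential.D k F (z i)) := by
    funext j
    by_cases hj : j = i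
    · subst hj
      rw [Function.update_self, Function.update_self, h]
    · rw [Function.update_of_ne hj, Function.update_of_ne hj]
  rw [e, AlternatingMap.map_update_smul, Function.update_eq_self]

/-- W1: inversion of one coordinate. -/
theorem comp_inv (v : Place k F) {d : ℕ} (z : Fin d → F) (i : Fin d) (_hi : z i ≠ 0) :
    Comp v ((v.val (z i)) ^ (-2 : ℤ)) z (Function.update z i (z i)⁻¹) := by
  refine ⟨adjoin_update z i _ (fun E h => E.inv_mem h)
    (fun E h => by simpa using E.inv_mem h), -(z i)⁻¹ ^ 2, ?_, ?_⟩
  · rw [Valuation.map_neg, map_pow, map_inv₀]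
    rw [zpow_neg, inv_pow]
    norm_cast
  · apply wedge_update
    rw [Derivation.leibniz_inv]

/-- W2: translation / reflection of one coordinate by an element of `k`. -/
theorem comp_sub_const (v : Place k F) {d : ℕ} (z : Fin d → F) (i : Fin d) (c : k) :
    Comp v 1 z (Function.update z i (z i - algebraMap k F c)) := by
  refine ⟨adjoin_update z i _ (fun E h => E.sub_mem h (E.algebraMap_mem c))
    (fun E h => ?_), 1, map_one _, ?_⟩
  · have := E.add_mem h (E.algebraMap_mem c)
    rwa [sub_add_cancel] at this
  · apply wedge_update
    rw [map_sub, Derivation.map_algebraMap, sub_zero, one_smul]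

theorem comp_const_sub (v : Place k F) {d : ℕ} (z : Fin d → F) (i : Fin d) (c : k) :
    Comp v 1 z (Function.update z i (algebraMap k F c - z i)) := by
  refine ⟨adjoin_update z i _ (fun E h => E.sub_mem (E.algebraMap_mem c) h)
    (fun E h => ?_), -1, ?_, ?_⟩
  · have := E.sub_mem (E.algebraMap_mem c) h
    rwa [sub_sub_cancel] at this
  · rw [Valuation.map_neg, map_one]
  · apply wedge_update
    rw [map_sub, Derivation.map_algebraMap, zero_sub, neg_one_smul]

/-- Differentials of elements of the field generated by a set. -/
theorem D_mem_span_of_mem_adjoin (S : Set F) {μ : F} (hμ : μ ∈ IntermediateField.adjoin k S) :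
    KaehlerDifferential.D k F μ ∈ Submodule.span F (KaehlerDifferential.D k F '' S) := by
  induction hμ using IntermediateField.adjoin_induction with
  | mem x hx => exact Submodule.subset_span ⟨x, hx, rfl⟩
  | algebraMap x =>
    rw [Derivation.map_algebraMap]
    exact Submodule.zero_mem _
  | add x y _ _ hx hy =>
    rw [map_add]
    exact Submodule.add_mem _ hx hy
  | inv x _ hx =>
    rw [Derivation.leibniz_inv]
    exact Submodule.smul_mem _ _ hx
  | mul x y _ _ hx hy =>
    rw [Derivation.leibniz]
    exact Submodule.add_mem _ (Submodule.smul_mem _ _ hy) (Submodule.smul_mem _ _ hx)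

theorem alt_update_eq_zero {R M N ι : Type*} [CommRing R] [AddCommGroup M] [Module R M]
    [AddCommGroup N] [Module R N] [DecidableEq ι] (f : M [⋀^ι]→ₗ[R] N) (w : ι → M) (j : ι) (u : M)
    (hu : u ∈ Submodule.span R (w '' {m | m ≠ j})) : f (Function.update w j u) = 0 := by
  induction hu using Submodule.span_induction with
  | mem x hx =>
    obtain ⟨m, hm, rfl⟩ := hx
    exact f.map_update_self w (Ne.symm hm)
  | zero => exact f.map_update_zero w j
  | add x y _ _ hx hy => rw [f.map_update_add, hx, hy, add_zero]
  | smul a x _ hx => rw [f.map_update_smul, hx, smul_zero]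

theorem alt_smul_add {R M N ι : Type*} [CommRing R] [AddCommGroup M] [Module R M]
    [AddCommGroup N] [Module R N] [DecidableEq ι] [Fintype ι] (f : M [⋀^ι]→ₗ[R] N) (w : ι → M)
    (A : Finset ι) (μ : R) (c : ι → R) (u : M)
    (hu : u ∈ Submodule.span R (w '' (A : Set ι)ᶜ)) :
    f (fun i => if i ∈ A then μ • w i + c i • u else w i) = μ ^ A.card • f w := by
  have key : ∀ B : Finset ι, B ⊆ A →
      f (fun i => if i ∈ A then (if i ∈ B then μ • w i + c i • u else μ • w i) else w i) =
        f (fun i => if i ∈ A then μ • w i else w i) := by
    intro B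
    induction B using Finset.induction_on with
    | empty => intro _; simp
    | insert j B hj ih =>
      intro hB
      have hjA : j ∈ A := hB (Finset.mem_insert_self j B)
      have hBA : B ⊆ A := fun x hx => hB (Finset.mem_insert_of_mem hx)
      set w' : ι → M := fun i => if i ∈ A then
        (if i ∈ B then μ • w i + c i • u else μ • w i) else w i with hw'
      have e : (fun i => if i ∈ A then (if i ∈ insert j B then μ • w i + c i • u else μ • w i)
          else w i) = Function.update w' j (μ • w j + c j • u) := by
        funext i
        by_cases hi : i = j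
        · subst hi
          rw [Function.update_self, if_pos hjA, if_pos (Finset.mem_insert_self i B)]
        · rw [Function.update_of_ne hi]
          simp only [hw', Finset.mem_insert, hi, false_or]
      have hwj : w' j = μ • w j := by simp only [hw', if_pos hjA, if_neg hj]
      have h1 : Function.update w' j (μ • w j) = w' := by
        rw [← hwj, Function.update_eq_self]
      have h2 : f (Function.update w' j u) = 0 := by
        apply alt_update_eq_zero
        refine Submodule.span_mono ?_ hu
        rintro _ ⟨m, hm, rfl⟩
        have hmA : m ∉ A := by simpa using hm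
        refine ⟨m, fun h => hmA (h ▸ hjA), ?_⟩
        simp only [hw', if_neg hmA]
      rw [e, f.map_update_add, h1, f.map_update_smul, h2, smul_zero, add_zero]
      exact ih hBA
  have h1 := key A subset_rfl
  have e1 : (fun i => if i ∈ A then μ • w i + c i • u else w i) =
      (fun i => if i ∈ A then (if i ∈ A then μ • w i + c i • u else μ • w i) else w i) := by
    funext i
    by_cases hi : i ∈ A <;> simp [hi]
  have e2 : (fun i => if i ∈ A then μ • w i else w i) =
      fun i => (if i ∈ A then μ else 1) • w i := by
    funext i
    by_cases hi : i ∈ A <;> simp [hi]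
  rw [e1, h1, e2, AlternatingMap.map_smul_univ]
  congr 1
  rw [Finset.prod_ite_mem, Finset.univ_inter, Finset.prod_const]

/-- W3: scaling of the coordinates in `A` by an element of the field generated by the others. -/
theorem comp_smul (v : Place k F) {d : ℕ} (z : Fin d → F) (A : Finset (Fin d)) (μ : F) (hμ : μ ≠ 0)
    (hmem : μ ∈ IntermediateField.adjoin k (z '' (A : Set (Fin d))ᶜ)) :
    Comp v (v.val μ ^ A.card) z (fun i => if i ∈ A then μ * z i else z i) := by
  have hsub : z '' (A : Set (Fin d))ᶜ ⊆ Set.range z := Set.image_subset_range _ _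
  have hμ1 : μ ∈ IntermediateField.adjoin k (Set.range z) :=
    IntermediateField.adjoin.mono k _ _ hsub hmem
  have hsub' : z '' (A : Set (Fin d))ᶜ ⊆
      Set.range (fun i => if i ∈ A then μ * z i else z i) := by
    rintro _ ⟨m, hm, rfl⟩
    have hmA : m ∉ A := by simpa using hm
    exact ⟨m, by simp only [if_neg hmA]⟩
  have hμ2 : μ ∈ IntermediateField.adjoin k
      (Set.range (fun i => if i ∈ A then μ * z i else z i)) :=
    IntermediateField.adjoin.mono k _ _ hsub' hmem
  refine ⟨adjoin_eq_of_mem ?_ ?_, μ ^ A.card, map_pow _ _ _, ?_⟩
  · intro i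
    split_ifs
    · exact mul_mem hμ1 (mem_adjoin_range z i)
    · exact mem_adjoin_range z i
  · intro i
    have h1 := mem_adjoin_range (k := k) (fun i => if i ∈ A then μ * z i else z i) i
    beta_reduce at h1
    split_ifs at h1 with hi
    · have h2 := mul_mem (IntermediateField.inv_mem _ hμ2) h1
      rwa [inv_mul_cancel_left₀ hμ] at h2
    · exact h1
  · unfold wedge
    have e : (fun i => KaehlerDifferential.D k F (if i ∈ A then μ * z i else z i)) =
        fun i => if i ∈ A then μ • KaehlerDifferential.D k F (z i) +
          z i • KaehlerDifferential.D k F μ else KaehlerDifferential.D k F (z i) := by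
      funext i
      by_cases hi : i ∈ A
      · simp only [if_pos hi, Derivation.leibniz]
      · simp only [if_neg hi]
    rw [e]
    apply alt_smul_add (exteriorPower.ιMulti F d) (fun i => KaehlerDifferential.D k F (z i)) A μ z
    have h1 := D_mem_span_of_mem_adjoin _ hmem
    rwa [← Set.image_comp] at h1

/-- For a purely transcendental extension the differentials of the variables form a basis. -/
theorem exists_basis_D {d : ℕ} (z : Fin d → F) (hz : AlgebraicIndependent k z)
    (hgen : IntermediateField.adjoin k (Set.range z) = ⊤) :
    ∃ b : Module.Basis (Fin d) F (Ω[F⁄k]), ∀ i, b i = KaehlerDifferential.D k F (z i) := by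
  let _ : Algebra (MvPolynomial (Fin d) k) F := (MvPolynomial.aeval z).toRingHom.toAlgebra
  have htower : IsScalarTower k (MvPolynomial (Fin d) k) F :=
    IsScalarTower.of_algebraMap_eq fun r => ((MvPolynomial.aeval z).commutes r).symm
  have hinj : Function.Injective (algebraMap (MvPolynomial (Fin d) k) F) := hz
  have hX : ∀ i, algebraMap (MvPolynomial (Fin d) k) F (MvPolynomial.X i) = z i := fun i =>
    MvPolynomial.aeval_X z i
  have hfrac : IsFractionRing (MvPolynomial (Fin d) k) F := by
    have : FaithfulSMul (MvPolynomial (Fin d) k) F :=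
      (faithfulSMul_iff_algebraMap_injective _ _).mpr hinj
    refine IsFractionRing.of_field _ _ fun x => ?_
    have hx : x ∈ IntermediateField.adjoin k (Set.range z) := by rw [hgen]; trivial
    rw [IntermediateField.mem_adjoin_range_iff] at hx
    obtain ⟨r, s, hrs⟩ := hx
    exact ⟨r, s, hrs⟩
  have het : Algebra.FormallyEtale (MvPolynomial (Fin d) k) F :=
    Algebra.FormallyEtale.of_isLocalization (nonZeroDivisors (MvPolynomial (Fin d) k))
  let e := KaehlerDifferential.tensorKaehlerEquivOfFormallyEtale k (MvPolynomial (Fin d) k) F
  refine ⟨((KaehlerDifferential.mvPolynomialBasis k (Fin d)).baseChange F).map e, fun i => ?_⟩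
  rw [Module.Basis.map_apply, Module.Basis.baseChange_apply,
    KaehlerDifferential.mvPolynomialBasis_apply]
  simp only [e]
  rw [KaehlerDifferential.tensorKaehlerEquivOfFormallyEtale_apply]
  rw [KaehlerDifferential.mapBaseChange_tmul, one_smul, KaehlerDifferential.map_D, hX]

/-- W4: for a purely transcendental extension the wedge is not zero. -/
theorem wedge_ne_zero {d : ℕ} (z : Fin d → F) (hz : AlgebraicIndependent k z)
    (hgen : IntermediateField.adjoin k (Set.range z) = ⊤) : wedge k z ≠ 0 := by
  obtain ⟨b, hb⟩ := exists_basis_D z hz hgen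
  intro h0
  have h1 := exteriorPower.pairingDual_ιMulti_ιMulti (R := F) (M := Ω[F⁄k])
    (fun i => b.coord i) (fun i => KaehlerDifferential.D k F (z i))
  unfold wedge at h0
  rw [h0, map_zero] at h1
  have h2 : (Matrix.of fun i j : Fin d => b.coord j (KaehlerDifferential.D k F (z i))) = 1 := by
    ext i j
    rw [Matrix.of_apply, ← hb, Module.Basis.coord_apply, Module.Basis.repr_self, Matrix.one_apply,
      Finsupp.single_apply]
  rw [h2, Matrix.det_one] at h1
  exact zero_ne_one h1

end

end NefK
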